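import Pool.Agent.H7.KR.Stmts

/-! Row PTW of board kr (MP_fd41b2_co): the pointwise bound of the share. -/

set_option autoImplicit false

open Finset

namespace Pool.KR

open Pool.Agent.H23.KT Pool.Agent.H46.KW Pool.KQ

lemma ptw_num (x g X N Y : ℝ) (hxg : x ≤ g) (hY0 : 0 ≤ Y) (hYX : Y ≤ X - x) (hN : 1 ≤ N) :
    x + Y / N ≤ g + max (X - g) 0 / N := by
  have hN0 : 0 < N := by linarith
  have h1 : Y / N ≤ (X - x) / N := div_le_div_of_nonneg_right hYX hN0.le
  refine le_trans (add_le_add_right h1 x) ?_
  rcases le_total g X with h | h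
  · rw [max_eq_left (by linarith)]
    have h2 : x + (X - x) / N = g + (X - g) / N - (g - x) * (1 - 1 / N) := by
      field_simp
      ring
    have h3 : 0 ≤ (g - x) * (1 - 1 / N) := by
      apply mul_nonneg (by linarith)
      have : 1 / N ≤ 1 := by
        rw [div_le_one hN0]
        exact hN
      linarith
    linarith
  · rw [max_eq_right (by linarith), zero_div, add_zero]
    have h2 : (X - x) / N ≤ X - x := div_le_self (by linarith) hN
    linarith

/-- **PTW** -/
theorem ptw (h1 : ZSMStmt) : PTWStmt := by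
  intro V _ _ G p a hG v u hu W₀ hW₀ S hS
  have hvu : G.Adj v u := ((mem_nb G).1 hu).2
  have hco : ∀ x, x ∈ co G v u → G.Adj v x ∧ G.Adj u x := by
    intro x hx
    unfold co at hx
    rw [mem_nb, mem_nb] at hx
    exact ⟨hx.1.2, hx.2⟩
  have hcb1 : CB G (nb G univ v) (p + 3) := hG.cb.nb (mem_univ v)
  have hcb2 : CB G (co G v u) (p + 2) := hcb1.nb hu
  have hcb3 : CB G W₀ (p + 2) := hcb2.mono hW₀
  have hSc := (mem_clq G).1 hS
  have hvS : v ∉ S := fun h => G.loopless.irrefl v (hco v (hW₀ (hSc.1 h))).1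
  have huS : u ∉ S := fun h => G.loopless.irrefl u (hco u (hW₀ (hSc.1 h))).2
  have hvuS : v ∉ insert u S := by
    intro h
    rcases mem_insert.1 h with h | h
    · exact G.loopless.irrefl v (by rw [← h] at hvu; exact hvu)
    · exact hvS h
  set K : Finset V := insert v (insert u S) with hKdef
  -- `K` is a clique
  have hK : K ∈ clq G univ (p + 4) := by
    rw [mem_clq]
    refine ⟨subset_univ _, ?_, ?_⟩
    · rw [hKdef, card_insert_of_notMem hvuS, card_insert_of_notMem huS, hSc.2.1]
    · rw [hKdef, coe_insert, SimpleGraph.isClique_insert, coe_insert,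
        SimpleGraph.isClique_insert]
      refine ⟨⟨hSc.2.2, ?_⟩, ?_⟩
      · intro s hs _
        exact (hco s (hW₀ (hSc.1 (mem_coe.1 hs)))).2
      · intro s hs _
        rcases Set.mem_insert_iff.1 hs with rfl | hs
        · exact hvu
        · exact (hco s (hW₀ (hSc.1 (mem_coe.1 hs)))).1
  -- (1) the excess of `v`
  have hnz : nz G univ K v + (co G v u).card ≤ (p + 3) * a + (p + 2) := by
    have hK1 : K.erase v = insert u S := by rw [hKdef, erase_insert hvuS]
    unfold nz
    rw [hK1]
    have hdis : Disjoint (cn G univ (insert u S)) (co G v u) := by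
      rw [disjoint_left]
      intro x hx hx2
      have h2 := (mem_cn.1 hx).2
      apply not_all (q := p + 3) hG.cb hK (mem_univ x)
      intro s hs
      rcases mem_insert.1 hs with rfl | hs
      · exact (hco x hx2).1
      · exact h2 s hs
    rw [← card_union_of_disjoint hdis]
    refine le_trans (card_le_card ?_) (hG.deg u)
    intro x hx
    rw [mem_nb]
    refine ⟨mem_univ _, ?_⟩
    rcases mem_union.1 hx with hx | hx
    · exact (mem_cn.1 hx).2 u (mem_insert_self _ _)
    · exact (hco x hx).2
  set g : ℝ := max (((p : ℝ) + 2) * (a + 1) - (co G v u).card) 0 with hgdef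
  have hg0 : 0 ≤ g := le_max_right _ _
  have hx0 : 0 ≤ fp G a K v := le_max_right _ _
  have hxg : fp G a K v ≤ g := by
    unfold fp
    apply max_le _ hg0
    refine le_trans ?_ (le_max_left _ _)
    have h2 : ((nz G univ K v : ℝ)) + (co G v u).card ≤ ((p : ℝ) + 3) * a + (p + 2) := by
      exact_mod_cast hnz
    linarith
  -- (2) the total excess
  have hff : ff G a K = fp G a K v + (fp G a K u + ∑ w ∈ S, fp G a K w) := by
    unfold ff
    rw [hKdef, sum_insert hvuS, sum_insert huS]
  have hfpu : 0 ≤ fp G a K u := le_max_right _ _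
  have hsum0 : 0 ≤ ∑ w ∈ S, fp G a K w := sum_nonneg fun w _ => le_max_right _ _
  have hF1 : fp G a K v ≤ ff G a K := by linarith
  have hsum1 : (W₀.card : ℝ) - ze G p W₀ S - ((p : ℝ) + 2) * a ≤ ∑ w ∈ S, fp G a K w := by
    have h2 : ∀ w ∈ S, (nz G W₀ S w : ℝ) - a ≤ fp G a K w := by
      intro w hw
      unfold fp
      refine le_trans ?_ (le_max_left _ _)
      have h3 : nz G W₀ S w ≤ nz G univ K w := by
        unfold nz
        apply card_le_card
        intro y hy
        rw [mem_cn] at hy ⊢
        refine ⟨mem_univ _, ?_⟩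
        intro s hs
        rw [mem_erase, hKdef, mem_insert, mem_insert] at hs
        rcases hs.2 with h | h | h
        · rw [h]
          exact (hco y (hW₀ hy.1)).1
        · rw [h]
          exact (hco y (hW₀ hy.1)).2
        · exact hy.2 s (mem_erase.2 ⟨hs.1, h⟩)
      have h4 : (nz G W₀ S w : ℝ) ≤ nz G univ K w := by exact_mod_cast h3
      linarith
    have h3 := sum_le_sum h2
    rw [sum_sub_distrib, sum_const, hSc.2.1, nsmul_eq_mul] at h3
    have h4 := h1 G p W₀ S hcb3 hS
    have h5 : (∑ w ∈ S, (nz G W₀ S w : ℝ)) + ze G p W₀ S = W₀.card := by exact_mod_cast h4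
    push_cast at h3
    linarith
  have hF2 : fp G a K v + ((W₀.card : ℝ) - ze G p W₀ S - ((p : ℝ) + 2) * a) ≤ ff G a K := by
    linarith
  have hN : (1 : ℝ) ≤ (p : ℝ) + 4 := by
    have : (0 : ℝ) ≤ p := Nat.cast_nonneg p
    linarith
  have hN0 : (0 : ℝ) < (p : ℝ) + 4 := by linarith
  by_cases hc : ff G a K ≤ (p : ℝ) + 2
  · have hy : yy G p a K v = fp G a K v + ((p : ℝ) + 2 - ff G a K) / ((p : ℝ) + 4) := by
      unfold yy
      rw [if_pos hc]
    rw [hy]
    constructor
    · exact ptw_num _ _ _ _ _ hxg (by linarith) (by linarith) hN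
    · exact ptw_num _ _ _ _ _ hxg (by linarith) (by linarith) hN
  · have hpos : (0 : ℝ) ≤ (p : ℝ) + 2 := by
      have : (0 : ℝ) ≤ p := Nat.cast_nonneg p
      linarith
    have hF0 : 0 < ff G a K := by
      rw [not_le] at hc
      linarith
    have hy : yy G p a K v ≤ g := by
      unfold yy
      rw [if_neg hc]
      have h2 : ((p : ℝ) + 2) / ff G a K ≤ 1 := by
        rw [div_le_one hF0]
        rw [not_le] at hc
        exact hc.le
      have h3 := mul_le_mul_of_nonneg_left h2 hx0
      linarith
    constructor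
    · refine le_trans hy ?_
      have : 0 ≤ max (((p : ℝ) + 2) * (a + 1) - W₀.card + ze G p W₀ S - g) 0 /
          ((p : ℝ) + 4) := div_nonneg (le_max_right _ _) hN0.le
      linarith
    · refine le_trans hy ?_
      have : 0 ≤ max ((p : ℝ) + 2 - g) 0 / ((p : ℝ) + 4) :=
        div_nonneg (le_max_right _ _) hN0.le
      linarith

end Pool.KR
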